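import Mathlib
import Pool.Agent.H764QD.Param

/-!
# Birational parametrizations of quartic double covers have degree at least four

Let `X → ℙ^r` be the double cover branched along a smooth quartic hypersurface `f = 0`, `r ≥ 3`
(`r = 5`: a smooth quartic double fivefold). A birational map `ℙ^r ⇢ X` is given by forms of degree
`k` without common factor for the coordinates of `ℙ^r`, and by a form of degree `2 k` for the square
root of `f`. We show that `k ≥ 4`. The inequality which follows from the canonical class (Noether and
Fano) is only `k ≥ 2`, and for `r = 2` (del Pezzo surfaces of degree two) `k = 3` occurs.

Idea of the proof. Consider the ramification divisor `R`, which is isomorphic to the branch divisor,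
and its center `Z` on `ℙ^r`. If `Z` is a hypersurface, it is mapped birationally to the
branch divisor, and the composition with the Gauss map is a map of degree at least `4 * 3 ^ (r - 1)`;
but the fibres of this map are given by equations of degree `k - 1` (one of the rows of these equations
being linear in the last coordinate of the tangent hyperplane), whose point of interest is reduced,
and this gives the bound `(r + 1) (k - 1) ^ r` for the degree. This is a contradiction for `k ≤ 3`.
If `Z` is smaller, then all the forms vanish along `Z`, and the derivations of the function field
along the coordinates, multiplied by one of the forms, act on the function field of `R`. They move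
the generic point of `R` along lines, and the branch divisor is not ruled by lines with a
section; so they act trivially, which means that all the forms have a double zero at the points of
`Z`. If `k = 3` then the lines through such a point are mapped to lines, which is impossible (this is
the theorem on families of lines).
-/

set_option autoImplicit false

namespace Pool.Agent.Results.MP_9bf728_ag.DegreeFour

open MvPolynomial

/-- `f` is a quartic form whose partial derivatives have no common zero besides the origin: the
hypersurface `f = 0` is a smooth quartic -/
def SmoothQuartic {r : ℕ} (f : MvPolynomial (Fin r) ℂ) : Prop :=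
  f.IsHomogeneous 4 ∧ ∀ z : Fin r → ℂ, (∀ i, eval z (pderiv i f) = 0) → z = 0

/-- the function field of the double cover `w² = f(x)` at a point `(x, w)` over `M`: it is generated
by the ratios `x_i / x_j` and `w / x_j ^ 2` -/
noncomputable def functionField {r : ℕ} {M : Type} [Field M] [Algebra ℂ M] (x : Fin r → M)
    (w : M) : IntermediateField ℂ M :=
  IntermediateField.adjoin ℂ ({z | ∃ i j, z = x i / x j} ∪ {z | ∃ j, z = w / x j ^ 2})

/-- The polynomials `G_0, …, G_r, W` in `r` variables parametrize the double cover `w² = f(x)` of
projective space of dimension `r` birationally: `W² = f(G)`, and the ratios `G_i / G_j` and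
`W / G_j ^ 2` generate the field of rational functions in `r` variables -/
def Parametrizes {r : ℕ} (f : MvPolynomial (Fin (r + 1)) ℂ)
    (G : Fin (r + 1) → MvPolynomial (Fin r) ℂ) (W : MvPolynomial (Fin r) ℂ) : Prop :=
  W ^ 2 = aeval G f ∧
    functionField
      (fun i => algebraMap (MvPolynomial (Fin r) ℂ) (FractionRing (MvPolynomial (Fin r) ℂ)) (G i))
      (algebraMap (MvPolynomial (Fin r) ℂ) (FractionRing (MvPolynomial (Fin r) ℂ)) W) = ⊤

/-- Every birational parametrization of the double cover of projective space of dimension `r ≥ 3`
branched along a smooth quartic has degree at least four. -/
theorem result {r : ℕ} (hr : 3 ≤ r) (f : MvPolynomial (Fin (r + 1)) ℂ) (hf : SmoothQuartic f)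
    (G : Fin (r + 1) → MvPolynomial (Fin r) ℂ) (W : MvPolynomial (Fin r) ℂ)
    (h : Parametrizes f G W) : ∃ i, 4 ≤ (G i).totalDegree := by
  by_contra hcon
  push Not at hcon
  exact Pool.Agent.H764QD.no_param hr f hf.1 hf.2 G W (fun i => Nat.le_of_lt_succ (hcon i)) h.1 h.2

end Pool.Agent.Results.MP_9bf728_ag.DegreeFour
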