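import Mathlib
import Pool.Agent.H764QD.Lines

/-!
# Rulings over lines of smooth quartic double covers

Let `X → ℙ^(r-1)` be the double cover branched along a smooth quartic hypersurface `B = (f = 0)`
(`r = 6`: a smooth quartic double fivefold). Consider any ruled variety with function field
`M = L(t)` and any rational map to `X` which is dominant and generically finite, and suppose that
the curves of the ruling are mapped to curves of `X` which lie over lines of `ℙ^(r-1)` (these are the
lines of `X`, which lie over the bitangents of `B`, and the rational double covers of the tangent
lines of `B`). Then the degree of the map is divisible by three. In particular there is no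
birational map from projective space to `X` of this kind: no birational map
`ℙ⁵ ⇢ X` maps the lines through a point, or more generally the curves of a ruling, to curves
which lie over lines.

Idea of the proof. The restriction of `f` to the line, which is defined over `L`, is a binary
quartic form which takes a nonconstant square value over `L(t)`; by infinite descent (a genus one
curve is not covered by a rational one) it has a double zero, of degree at most two over `L`. This
gives a point `y` with `∑ x_i f_i(y) = 0` (the line is tangent to `B` at `y`) over an extension of
degree at most two of `M`. But the polar cubic of the generic point `x` of projective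
space is the generic member of the base point free linear system of the partial derivatives, and all
its points have degrees divisible by three over the field of `x`.
-/

set_option autoImplicit false

namespace Pool.Agent.Results.MP_9bf728_ag.LineRulings

open MvPolynomial

/-- `f` is a quartic form whose partial derivatives have no common zero besides the origin: the
hypersurface `f = 0` is a smooth quartic -/
def SmoothQuartic {r : ℕ} (f : MvPolynomial (Fin r) ℂ) : Prop :=
  f.IsHomogeneous 4 ∧ ∀ z : Fin r → ℂ, (∀ i, eval z (pderiv i f) = 0) → z = 0

/-- `(x, w)` is a point over the field `M` of the double cover `w² = f(x)`, and `x` is a generic point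
of projective space: no nonzero form vanishes at `x` -/
def GenericPoint {r : ℕ} {M : Type} [Field M] [Algebra ℂ M] (f : MvPolynomial (Fin r) ℂ)
    (x : Fin r → M) (w : M) : Prop :=
  w ^ 2 = aeval x f ∧
    ∀ (e : ℕ) (H : MvPolynomial (Fin r) ℂ), H.IsHomogeneous e → aeval x H = 0 → H = 0

/-- the function field of the double cover, as a subfield of `M`: it is generated by the ratios
`x_i / x_j` and `w / x_j ^ 2` -/
noncomputable def functionField {r : ℕ} {M : Type} [Field M] [Algebra ℂ M] (x : Fin r → M)
    (w : M) : IntermediateField ℂ M :=
  IntermediateField.adjoin ℂ ({z | ∃ i j, z = x i / x j} ∪ {z | ∃ j, z = w / x j ^ 2})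

/-- Let `f` be a smooth quartic form, let `M = L(t)` with `t` transcendental over `L`, and
let `(x, w)` be a generic point over `M` of the double cover `w² = f(x)`. If `x` lies on a line over
`L`, that is, `x = a u + b v` with vectors `u`, `v` over `L` and `a`, `b` in `M`, then the degree of
`M` over the function field of the double cover is divisible by three (the degree is `0`
if `M` is not a finite extension). -/
theorem result {r : ℕ} (f : MvPolynomial (Fin r) ℂ) (hf : SmoothQuartic f)
    (M : Type) [Field M] [Algebra ℂ M] (L : IntermediateField ℂ M) (t : M)
    (ht : Transcendental L t) (hM : IntermediateField.adjoin L {t} = ⊤)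
    (x : Fin r → M) (w : M) (hx : GenericPoint f x w)
    (hline : ∃ (u v : Fin r → L) (a b : M), ∀ i, x i = a * (u i : M) + b * (v i : M)) :
    3 ∣ Module.finrank (functionField x w) M := by
  obtain ⟨u, v, a, b, h⟩ := hline
  have h1 := Pool.Agent.H764QD.lines_over hf.1 hf.2 L t ht hM x hx.2 w hx.1
    (fun i => (u i : M)) (fun i => (v i : M)) (fun i => (u i).2) (fun i => (v i).2) a b h
  rcases Nat.eq_zero_or_pos r with hr | hr
  · subst hr
    -- there are no coordinates: the ratio field is the field of complex numbers
    have h2 : Pool.Agent.TH314.PD.ratioField x = functionField x w := by
      unfold Pool.Agent.TH314.PD.ratioField functionField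
      congr 1
      ext z
      constructor
      · rintro ⟨i, _⟩
        exact i.elim0
      · rintro (⟨i, _⟩ | ⟨i, _⟩)
        · exact i.elim0
        · exact i.elim0
    rw [← h2]
    exact h1
  · refine Pool.Agent.H764QD.cover_dvd hf.1 x ⟨⟨0, hr⟩, fun h0 => ?_⟩ w hx.1 (by decide) h1
    exact X_ne_zero _ (hx.2 1 (X ⟨0, hr⟩) (isHomogeneous_X ℂ _) (by rw [aeval_X, h0]))

end Pool.Agent.Results.MP_9bf728_ag.LineRulings
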